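import Mathlib

/-!
# Directed domination and the independence number

For every orientation of an `r`-uniform hypergraph `H` with independence number `α`, every set `T`
of `2 α` vertices contains at least `α` vertices `u` which are the last vertex of an edge inside
`T`: the other vertices of `T` form an independent set.  Averaging over `T` gives a set `S` of
`2 α - 1` vertices which dominates at least half of the remaining vertices, and iterating gives a
dominating set of at most `2 α (log₂ n + 1)` vertices.
-/

set_option autoImplicit false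

namespace Pool.Agent.Results.MP_8fb7e7_co.IndependenceBound

open Finset

/-- An orientation of the hypergraph with edge set `H`: every edge `E` gets a linear ordering of
its vertices, given as a bijection from the set `Fin r` of places onto `E` (so every edge has
exactly `r` vertices). -/
def Orientation {V : Type} (r : ℕ) (H : Finset (Finset V)) : Type :=
  ∀ E : {E : Finset V // E ∈ H}, Fin r ≃ {v : V // v ∈ E.1}

/-- `S` is a directed `p`-dominating set of `D`: every vertex `u` outside `S` lies in some edge `E`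
the first `p` vertices of which all belong to `S`. -/
def IsDominating {V : Type} {r : ℕ} {H : Finset (Finset V)} (p : ℕ) (D : Orientation r H)
    (S : Finset V) : Prop :=
  ∀ u, u ∉ S → ∃ E : {E : Finset V // E ∈ H},
    u ∈ E.1 ∧ ∀ i : Fin r, i.val < p → (D E i).1 ∈ S

/-- The minimum size of a directed `p`-dominating set of `D`. -/
noncomputable def gamma {V : Type} {r : ℕ} {H : Finset (Finset V)} (p : ℕ)
    (D : Orientation r H) : ℕ :=
  sInf {k | ∃ S : Finset V, S.card = k ∧ IsDominating p D S}

/-- The upper directed `p`-domination number: the maximum of `gamma p D` over all orientations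
`D` of the hypergraph. -/
noncomputable def Gamma {V : Type} (p r : ℕ) (H : Finset (Finset V)) : ℕ :=
  sSup {k | ∃ D : Orientation r H, gamma p D = k}

/-- The independence number: the maximum size of a set of vertices containing no edge. -/
noncomputable def indepNumber {V : Type} (H : Finset (Finset V)) : ℕ :=
  sSup {k | ∃ S : Finset V, S.card = k ∧ ∀ E ∈ H, ¬ E ⊆ S}

section count

variable {V : Type} [DecidableEq V]

lemma exists_good (W : Finset V) (a : ℕ) (ha : 1 ≤ a) (hW : 2 * a ≤ W.card)
    (Dom : Finset V → V → Prop)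
    [∀ S u, Decidable (Dom S u)]
    (hDom : ∀ T ⊆ W, T.card = 2 * a → a ≤ (T.filter (fun u => Dom (T.erase u) u)).card) :
    ∃ S ⊆ W, S.card = 2 * a - 1 ∧ (W \ S).card ≤ 2 * ((W \ S).filter (fun u => Dom S u)).card := by
  by_contra hcon
  push Not at hcon
  set A := (powersetCard (2 * a) W).sigma (fun T => T.filter (fun u => Dom (T.erase u) u)) with hA
  set B := (powersetCard (2 * a - 1) W).sigma (fun S => (W \ S).filter (fun u => Dom S u)) with hB
  have hAB : A.card ≤ B.card := by
    apply Finset.card_le_card_of_injOn (fun x => (⟨x.1.erase x.2, x.2⟩ : (_ : Finset V) × V))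
    · rintro ⟨T, u⟩ hx
      simp only [hA, hB, coe_sigma, Set.mem_sigma_iff, mem_coe, mem_powersetCard, mem_filter,
        mem_sdiff] at hx ⊢
      obtain ⟨⟨hTW, hTc⟩, hu, hd⟩ := hx
      refine ⟨⟨(erase_subset _ _).trans hTW, ?_⟩, ⟨hTW hu, by simp⟩, hd⟩
      rw [card_erase_of_mem hu, hTc]
    · rintro ⟨T, u⟩ hx ⟨T', u'⟩ hx' heq
      simp only [hA, coe_sigma, Set.mem_sigma_iff, mem_coe, mem_filter] at hx hx'
      simp only [Sigma.mk.injEq, heq_eq_eq] at heq
      obtain ⟨h1, h2⟩ := heq
      subst h2
      have : T = T' := by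
        rw [← insert_erase hx.2.1, ← insert_erase hx'.2.1, h1]
      subst this
      rfl
  have hA' : a * (W.card.choose (2 * a)) ≤ A.card := by
    rw [hA, card_sigma]
    calc a * (W.card.choose (2 * a)) = ∑ T ∈ powersetCard (2 * a) W, a := by
          rw [sum_const, card_powersetCard, smul_eq_mul, mul_comm]
      _ ≤ _ := sum_le_sum (fun T hT => by
          rw [mem_powersetCard] at hT
          exact hDom T hT.1 hT.2)
  have hB' : 2 * B.card < W.card.choose (2 * a - 1) * (W.card - (2 * a - 1)) := by
    rw [hB, card_sigma, mul_sum]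
    calc ∑ S ∈ powersetCard (2 * a - 1) W, 2 * ((W \ S).filter (fun u => Dom S u)).card
        < ∑ S ∈ powersetCard (2 * a - 1) W, (W.card - (2 * a - 1)) := by
          apply sum_lt_sum_of_nonempty
          · rw [powersetCard_nonempty]
            omega
          · intro S hS
            rw [mem_powersetCard] at hS
            have h1 := hcon S hS.1 hS.2
            rw [card_sdiff_of_subset hS.1, hS.2] at h1
            exact h1
      _ = _ := by rw [sum_const, card_powersetCard, smul_eq_mul]
  have hch := Nat.choose_succ_right_eq W.card (2 * a - 1)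
  have h2 : 2 * a - 1 + 1 = 2 * a := by omega
  rw [h2] at hch
  rw [← hch] at hB'
  nlinarith

end count

variable {V : Type} [Fintype V]

lemma indep_bdd (H : Finset (Finset V)) :
    BddAbove {k | ∃ S : Finset V, S.card = k ∧ ∀ E ∈ H, ¬ E ⊆ S} := by
  refine ⟨Fintype.card V, ?_⟩
  rintro k ⟨S, rfl, -⟩
  exact card_le_univ S

lemma card_le_indep {H : Finset (Finset V)} {S : Finset V} (hS : ∀ E ∈ H, ¬ E ⊆ S) :
    S.card ≤ indepNumber H :=
  le_csSup (indep_bdd H) ⟨S, rfl, hS⟩

open Classical in
/-- The main recursion: inside every nonempty set `W` there is a set of at most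
`2 a (log₂ |W| + 1)` vertices which dominates `W`. -/
lemma exists_dom {r p a : ℕ} {H : Finset (Finset V)} (hp : p < r) (D : Orientation r H)
    (ha : 1 ≤ a) (hind : indepNumber H ≤ a) :
    ∀ (N : ℕ) (W : Finset V), W.card = N → W.Nonempty →
      ∃ S ⊆ W, S.card ≤ 2 * a * (Nat.log 2 W.card + 1) ∧
        ∀ u ∈ W, u ∉ S → ∃ E : {E : Finset V // E ∈ H},
          u ∈ E.1 ∧ ∀ i : Fin r, i.val < p → (D E i).1 ∈ S := by
  intro N
  induction N using Nat.strong_induction_on with
  | _ N ih =>
  intro W hWN hWne
  by_cases hsmall : W.card < 2 * a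
  · refine ⟨W, Subset.rfl, ?_, fun u hu hu' => absurd hu hu'⟩
    nlinarith [Nat.zero_le (Nat.log 2 W.card)]
  push Not at hsmall
  have hr : 0 < r := by omega
  -- `Dom S u`: some edge has last vertex `u` and all its other vertices in `S`
  let Dom : Finset V → V → Prop := fun S u => ∃ E : {E : Finset V // E ∈ H},
    (D E ⟨r - 1, by omega⟩).1 = u ∧ ∀ i : Fin r, i.val < r - 1 → (D E i).1 ∈ S
  obtain ⟨S, hSW, hSc, hSd⟩ := exists_good W a ha hsmall Dom (by
    intro T hTW hTc
    have hI : (T.filter (fun u => ¬ Dom (T.erase u) u)).card ≤ a := by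
      refine le_trans (card_le_indep ?_) hind
      intro E hE hET
      -- the last vertex of `E`
      have hv := (D ⟨E, hE⟩ ⟨r - 1, by omega⟩).2
      have hvT := hET hv
      rw [mem_filter] at hvT
      apply hvT.2
      refine ⟨⟨E, hE⟩, rfl, ?_⟩
      intro i hi
      rw [mem_erase]
      refine ⟨?_, (mem_filter.mp (hET (D ⟨E, hE⟩ i).2)).1⟩
      intro heq
      have h1 := (D ⟨E, hE⟩).injective (Subtype.ext heq)
      rw [h1] at hi
      simp at hi
    have hsum := card_filter_add_card_filter_not (s := T) (fun u => Dom (T.erase u) u)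
    omega)
  -- the undominated rest
  set W' := (W \ S).filter (fun u => ¬ Dom S u) with hW'
  have hsum := card_filter_add_card_filter_not (s := W \ S) (fun u => Dom S u)
  rw [← hW'] at hsum
  have hW'2 : 2 * W'.card ≤ (W \ S).card := by omega
  have hWS : (W \ S).card < W.card := by
    rw [card_sdiff_of_subset hSW]
    omega
  have hdomS : ∀ u ∈ W, u ∉ S → u ∉ W' → ∃ E : {E : Finset V // E ∈ H},
      u ∈ E.1 ∧ ∀ i : Fin r, i.val < p → (D E i).1 ∈ S := by
    intro u huW huS huW'
    have : Dom S u := by
      by_contra hnd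
      exact huW' (mem_filter.mpr ⟨mem_sdiff.mpr ⟨huW, huS⟩, hnd⟩)
    obtain ⟨E, hE1, hE2⟩ := this
    exact ⟨E, hE1 ▸ (D E _).2, fun i hi => hE2 i (by omega)⟩
  rcases W'.eq_empty_or_nonempty with hemp | hne
  · refine ⟨S, hSW, ?_, fun u huW huS => hdomS u huW huS (by rw [hemp]; simp)⟩
    rw [hSc]
    have h0 : 0 < Nat.log 2 W.card + 1 := Nat.succ_pos _
    have := Nat.le_mul_of_pos_right (2 * a) h0
    omega
  · obtain ⟨S', hS'W', hS'c, hS'd⟩ := ih W'.card (by omega) W' rfl hne
    have hW'W : W' ⊆ W := (filter_subset _ _).trans sdiff_subset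
    refine ⟨S ∪ S', union_subset hSW (hS'W'.trans hW'W), ?_, ?_⟩
    · have hlog : Nat.log 2 W'.card + 1 ≤ Nat.log 2 W.card := by
        have h2 : W'.card * 2 ≤ W.card := by omega
        rw [← Nat.log_mul_base (by norm_num) (by
          have := hne.card_pos
          omega)]
        exact Nat.log_mono_right h2
      calc (S ∪ S').card ≤ S.card + S'.card := card_union_le _ _
        _ ≤ (2 * a - 1) + 2 * a * (Nat.log 2 W'.card + 1) := by omega
        _ ≤ 2 * a + 2 * a * Nat.log 2 W.card := by
          have := Nat.mul_le_mul_left (2 * a) hlog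
          omega
        _ = 2 * a * (Nat.log 2 W.card + 1) := by ring
    · intro u huW hu
      rw [mem_union, not_or] at hu
      by_cases huW' : u ∈ W'
      · obtain ⟨E, hE1, hE2⟩ := hS'd u huW' hu.2
        exact ⟨E, hE1, fun i hi => mem_union_right _ (hE2 i hi)⟩
      · obtain ⟨E, hE1, hE2⟩ := hdomS u huW hu.1 huW'
        exact ⟨E, hE1, fun i hi => mem_union_left _ (hE2 i hi)⟩

lemma gamma_le {r p : ℕ} {H : Finset (Finset V)} (hp : p < r) (D : Orientation r H)
    (hV : 2 ≤ Fintype.card V) (hr : 2 ≤ r) :
    gamma p D ≤ 2 * indepNumber H * (Nat.log 2 (Fintype.card V) + 1) := by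
  have hVne : Nonempty V := Fintype.card_pos_iff.mp (by omega)
  have ha : 1 ≤ indepNumber H := by
    obtain ⟨v⟩ := hVne
    have h1 : ({v} : Finset V).card ≤ indepNumber H := by
      apply card_le_indep
      intro E hE hsub
      have h2 := Fintype.card_congr (D ⟨E, hE⟩)
      rw [Fintype.card_fin, Fintype.card_coe] at h2
      have h3 := card_le_card hsub
      rw [card_singleton] at h3
      simp only at h2
      omega
    simpa using h1
  obtain ⟨S, -, hSc, hSd⟩ := exists_dom (p := p) hp D ha le_rfl (Fintype.card V) univ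
    card_univ univ_nonempty
  rw [card_univ] at hSc
  refine le_trans (Nat.sInf_le ⟨S, rfl, ?_⟩) hSc
  intro u hu
  exact hSd u (mem_univ u) hu

/-- For all `1 ≤ p ≤ r - 1` and every `r`-uniform hypergraph `H` of order `n ≥ 2` the upper
directed `p`-domination number is at most `6 α(H) ln n`. -/
theorem result (V : Type) [Fintype V] (r p : ℕ) (hp : 1 ≤ p) (hpr : p ≤ r - 1)
    (H : Finset (Finset V)) (hH : ∀ E ∈ H, E.card = r) (hV : 2 ≤ Fintype.card V) :
    (Gamma p r H : ℝ) ≤ 6 * (indepNumber H : ℝ) * Real.log (Fintype.card V) := by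
  have hr : 2 ≤ r := by omega
  set n := Fintype.card V with hn
  have hmain : Gamma p r H ≤ 2 * indepNumber H * (Nat.log 2 n + 1) := by
    unfold Gamma
    have hne : {k | ∃ D : Orientation r H, gamma p D = k}.Nonempty :=
      ⟨_, fun E => (Fintype.equivFinOfCardEq (by
        rw [Fintype.card_coe]; exact hH E.1 E.2)).symm, rfl⟩
    apply csSup_le hne
    rintro k ⟨D, rfl⟩
    exact gamma_le (by omega) D hV hr
  have hn2 : (2 : ℝ) ≤ n := by exact_mod_cast hV
  have hlog2 : (0.6931471803 : ℝ) < Real.log 2 := Real.log_two_gt_d9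
  have hlogn : Real.log 2 ≤ Real.log n := Real.log_le_log (by norm_num) hn2
  have h1 : ((Nat.log 2 n : ℕ) : ℝ) * Real.log 2 ≤ Real.log n := by
    rw [← Real.log_pow]
    apply Real.log_le_log (by positivity)
    exact_mod_cast Nat.pow_log_le_self 2 (by omega)
  have h2 : (Gamma p r H : ℝ) ≤ 2 * (indepNumber H : ℝ) * ((Nat.log 2 n : ℕ) + 1) := by
    exact_mod_cast hmain
  have h3 : ((Nat.log 2 n : ℕ) : ℝ) + 1 ≤ 3 * Real.log n := by
    have h4 : (((Nat.log 2 n : ℕ) : ℝ) + 1) * Real.log 2 ≤ 2 * Real.log n := by linarith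
    have h5 : (((Nat.log 2 n : ℕ) : ℝ) + 1) * (2/3) ≤ (((Nat.log 2 n : ℕ) : ℝ) + 1) * Real.log 2 :=
      mul_le_mul_of_nonneg_left (by linarith) (by positivity)
    linarith
  calc (Gamma p r H : ℝ) ≤ 2 * (indepNumber H : ℝ) * ((Nat.log 2 n : ℕ) + 1) := h2
    _ ≤ 2 * (indepNumber H : ℝ) * (3 * Real.log n) :=
        mul_le_mul_of_nonneg_left h3 (by positivity)
    _ = 6 * (indepNumber H : ℝ) * Real.log n := by ring

end Pool.Agent.Results.MP_8fb7e7_co.IndependenceBound
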